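import Pool.Agent.Helper64.Euler.Main

set_option autoImplicit false

open Set Filter Topology Real MeasureTheory
open Pool.Agent.Helper64.Euler

namespace Pool.Agent.Results.MP_d08855_an.OddSolutions

/-- Solutions that are odd in `y`: the strain grows at most linearly in time, and there is no
double exponential growth of the gradient on the axis. -/
theorem result (om : ℝ → ℝ → ℝ → ℝ) (h : IsSolution om)
    (ho : ∀ x y t, 0 ≤ t → om x (-y) t = - om x y t) :
    -- bounds at time `0` persist, and so does a disc containing the support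
    (∀ M, (∀ x y, |om x y 0| ≤ M) → ∀ x y t, 0 ≤ t → |om x y t| ≤ M) ∧
    (∀ R, 0 < R → (∀ x y, R ^ 2 < x ^ 2 + y ^ 2 → om x y 0 = 0) →
      ∀ x y t, 0 ≤ t → R ^ 2 < x ^ 2 + y ^ 2 → om x y t = 0) ∧
    ∃ K : ℝ, 0 < K ∧
      -- (i) the part of `om` that is odd in `x`
      (∀ x y t, 0 ≤ t → |om x y t - om (-x) y t| ≤ K * |x * y| * exp (K * t)) ∧
      -- (ii) the stream function and the velocity
      (∀ r θ t, 0 < r → 0 ≤ t →
        |psi om r θ t| ≤ K * (1 + t) * r ^ 2 ∧
        |deriv (fun φ => psi om r φ t) θ| ≤ K * (1 + t) * r ^ 2 ∧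
        |deriv (fun ρ => psi om ρ θ t) r| ≤ K * (1 + t) * r) ∧
      -- (iii) no particle comes near the origin (or leaves it) at a double exponential rate
      (∀ ρ ϑ : ℝ → ℝ, (∀ t, 0 ≤ t → 0 < ρ t) → ContinuousOn ρ (Ici 0) →
        (∀ t, 0 < t →
          HasDerivAt ρ (1 / ρ t * deriv (fun φ => psi om (ρ t) φ t) (ϑ t)) t) →
        ∀ t, 0 ≤ t → ρ 0 * exp (-(K * (1 + t) ^ 2)) ≤ ρ t ∧
          ρ t ≤ ρ 0 * exp (K * (1 + t) ^ 2)) ∧
      -- (iv) the vorticity near the axis and its gradient on the axis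
      (∀ x y t, 0 ≤ t → |om x y t| ≤ K * |y| * exp (K * (1 + t) ^ 2)) ∧
      (∀ x t, 0 ≤ t → gradNorm om x 0 t ≤ K * exp (K * (1 + t) ^ 2)) ∧
      (∀ c, 0 < c → ∃ T, ∀ t, T ≤ t → ∀ s ∈ Icc 0 t, ∀ x,
        gradNorm om x 0 s < exp (c * exp (c * t))) ∧
      -- (v) solutions that are odd in `x` as well
      ((∀ x y t, 0 ≤ t → om (-x) y t = - om x y t) →
        (∀ x y t, 0 ≤ t → |om x y t| ≤ K * |x * y| * exp (K * t)) ∧
        (∀ x t, 0 ≤ t → gradNorm om x 0 t ≤ K * |x| * exp (K * t)) ∧
        (∀ y t, 0 ≤ t → gradNorm om 0 y t ≤ K * |y| * exp (K * t))) := by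
  have hodd : OddY om := ho
  refine ⟨?_, ?_, ?_⟩
  · intro M hM x y t ht
    obtain ⟨R, hR, hR0⟩ := exists_supp h le_rfl
    exact sup_bound (T := t) h hodd hR (fun s hs => supp_global h hodd hR hR0 hs.1) hM x y t
      ⟨ht, le_rfl⟩
  · intro R hR hR0 x y t ht hxy
    exact supp_global h hodd hR hR0 ht x y hxy
  obtain ⟨R, M, K0, L, B, hR, hM, hK0, hL, hB, hs, hsup, hev, hbr, hom⟩ := package h hodd
  set K := 2 * K0 + 6 * M + L + 2 * B + 1 with hK
  have hKpos : 0 < K := by positivity
  have hexp : ∀ t : ℝ, 0 ≤ t → exp ((4 * M + 1) * t) ≤ exp (K * t) := fun t ht => by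
    apply exp_le_exp.mpr
    apply mul_le_mul_of_nonneg_right _ ht
    rw [hK]; linarith
  have hexp2 : ∀ t : ℝ, exp ((B + 2 * M + 1) * (1 + t) ^ 2) ≤ exp (K * (1 + t) ^ 2) := fun t => by
    apply exp_le_exp.mpr
    apply mul_le_mul_of_nonneg_right _ (sq_nonneg _)
    rw [hK]; linarith
  have h1 : ∀ x y t, 0 ≤ t → |ev om x y t| ≤ K0 * |x * y| * exp (K * t) := fun x y t ht =>
    (hev x y t ht).trans (mul_le_mul_of_nonneg_left (hexp t ht) (by positivity))
  have hvel : ∀ r θ t, 0 < r → 0 ≤ t →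
        |psi om r θ t| ≤ K * (1 + t) * r ^ 2 ∧
        |deriv (fun φ => psi om r φ t) θ| ≤ K * (1 + t) * r ^ 2 ∧
        |deriv (fun ρ => psi om ρ θ t) r| ≤ K * (1 + t) * r := by
    intro r θ t hr ht
    have hb := hbr r t hr ht
    have hw := wr_le (om := om) (M := M) (t := t) (fun x y => hsup x y t ht) r
    have hb0 := abs_nonneg (br om R r t)
    have hr2 : 0 < r ^ 2 := by positivity
    refine ⟨?_, ?_, ?_⟩
    · rw [psi_eq h hodd hR (hs t ht) ht hr θ, abs_mul, abs_mul, abs_of_pos hr2]
      have e1 : |sin (2 * θ)| * |br om R r t| ≤ 1 * (B * (1 + t)) :=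
        mul_le_mul (abs_sin_le_one _) hb hb0 zero_le_one
      calc r ^ 2 * (|sin (2 * θ)| * |br om R r t|) ≤ r ^ 2 * (1 * (B * (1 + t))) :=
            mul_le_mul_of_nonneg_left e1 hr2.le
        _ ≤ K * (1 + t) * r ^ 2 := by
            have : B ≤ K := by rw [hK]; linarith
            have e2 : B * (1 + t) ≤ K * (1 + t) := mul_le_mul_of_nonneg_right this (by linarith)
            nlinarith
    · rw [(hasDerivAt_psi_t h hodd hR (hs t ht) ht hr θ).deriv]
      have e0 : |2 * r ^ 2 * cos (2 * θ) * br om R r t| =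
          2 * r ^ 2 * (|cos (2 * θ)| * |br om R r t|) := by
        rw [abs_mul, abs_mul, abs_of_pos (by positivity : 0 < 2 * r ^ 2)]; ring
      rw [e0]
      have e1 : |cos (2 * θ)| * |br om R r t| ≤ 1 * (B * (1 + t)) :=
        mul_le_mul (abs_cos_le_one _) hb hb0 zero_le_one
      calc 2 * r ^ 2 * (|cos (2 * θ)| * |br om R r t|) ≤ 2 * r ^ 2 * (1 * (B * (1 + t))) :=
            mul_le_mul_of_nonneg_left e1 (by positivity)
        _ ≤ K * (1 + t) * r ^ 2 := by
            have : 2 * B ≤ K := by rw [hK]; linarith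
            have e2 : 2 * B * (1 + t) ≤ K * (1 + t) :=
              mul_le_mul_of_nonneg_right this (by linarith)
            nlinarith
    · rw [(hasDerivAt_psi_r h hodd hR (hs t ht) ht hr θ).deriv]
      have e0 : |sin (2 * θ) * r * (2 * br om R r t - wr om r t)| =
          r * (|sin (2 * θ)| * |2 * br om R r t - wr om r t|) := by
        rw [abs_mul, abs_mul, abs_of_pos hr]; ring
      rw [e0]
      have e2 : |2 * br om R r t - wr om r t| ≤ 2 * (B * (1 + t)) + 2 * M := by
        calc |2 * br om R r t - wr om r t| ≤ |2 * br om R r t| + |wr om r t| := abs_sub _ _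
          _ = 2 * |br om R r t| + |wr om r t| := by rw [abs_mul, abs_two]
          _ ≤ _ := by linarith
      have e1 : |sin (2 * θ)| * |2 * br om R r t - wr om r t| ≤
          1 * (2 * (B * (1 + t)) + 2 * M) :=
        mul_le_mul (abs_sin_le_one _) e2 (abs_nonneg _) zero_le_one
      calc r * (|sin (2 * θ)| * |2 * br om R r t - wr om r t|) ≤
            r * (1 * (2 * (B * (1 + t)) + 2 * M)) := mul_le_mul_of_nonneg_left e1 hr.le
        _ ≤ K * (1 + t) * r := by
            have : 2 * B + 2 * M ≤ K := by rw [hK]; linarith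
            have e2 : (2 * B + 2 * M) * (1 + t) ≤ K * (1 + t) :=
              mul_le_mul_of_nonneg_right this (by linarith)
            have e3 : 2 * (B * (1 + t)) + 2 * M ≤ (2 * B + 2 * M) * (1 + t) := by nlinarith
            nlinarith
  have h4 : ∀ x y t, 0 ≤ t → |om x y t| ≤ K * |y| * exp (K * (1 + t) ^ 2) := by
    intro x y t ht
    refine (hom x y t ht).trans ?_
    have : L ≤ K := by rw [hK]; linarith
    exact mul_le_mul (mul_le_mul_of_nonneg_right this (abs_nonneg _)) (hexp2 t) (exp_pos _).le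
      (by positivity)
  have h5 : ∀ x t, 0 ≤ t → gradNorm om x 0 t ≤ K * exp (K * (1 + t) ^ 2) := by
    intro x t ht
    apply grad_axis (by positivity) (fun x => hodd.zero x ht)
    intro v
    have := h4 x v t ht
    linarith
  refine ⟨K, hKpos, ?_, hvel, ?_, h4, h5, ?_, ?_⟩
  · intro x y t ht
    have e1 := h1 x y t ht
    unfold ev at e1
    rw [abs_div, abs_two, div_le_iff₀ (by norm_num)] at e1
    have e2 : 0 ≤ |x * y| * exp (K * t) := by positivity
    have e3 : 2 * K0 ≤ K := by rw [hK]; linarith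
    have e4 : 2 * K0 * (|x * y| * exp (K * t)) ≤ K * (|x * y| * exp (K * t)) :=
      mul_le_mul_of_nonneg_right e3 e2
    linarith
  · intro ρ ϑ hpos hc hd
    refine traj (v := fun t => 1 / ρ t * deriv (fun φ => psi om (ρ t) φ t) (ϑ t)) hKpos hpos hc
      hd ?_
    intro t ht
    have e1 := (hvel (ρ t) (ϑ t) t (hpos t ht.le) ht.le).2.1
    have e2 := hpos t ht.le
    rw [abs_mul, abs_of_pos (by positivity : 0 < 1 / ρ t)]
    calc 1 / ρ t * |deriv (fun φ => psi om (ρ t) φ t) (ϑ t)| ≤
          1 / ρ t * (K * (1 + t) * ρ t ^ 2) := mul_le_mul_of_nonneg_left e1 (by positivity)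
      _ = K * (1 + t) * ρ t := by field_simp
  · intro c hc
    obtain ⟨T, hT⟩ := eventually_lt_double K c hKpos hc
    refine ⟨T, fun t ht s hs x => ?_⟩
    refine lt_of_le_of_lt ((h5 x s hs.1).trans ?_) (hT t ht)
    apply mul_le_mul_of_nonneg_left _ hKpos.le
    apply exp_le_exp.mpr
    apply mul_le_mul_of_nonneg_left _ hKpos.le
    have := hs.1
    have := hs.2
    gcongr
  · intro hox
    have hodd2 : ∀ x y t, 0 ≤ t → |om x y t| ≤ K * |x * y| * exp (K * t) := by
      intro x y t ht
      have e1 : ev om x y t = om x y t := by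
        unfold ev; rw [hox x y t ht]; ring
      have e2 := h1 x y t ht
      rw [e1] at e2
      have e3 : K0 ≤ K := by rw [hK]; linarith
      refine e2.trans ?_
      apply mul_le_mul_of_nonneg_right _ (exp_pos _).le
      exact mul_le_mul_of_nonneg_right e3 (abs_nonneg _)
    refine ⟨hodd2, ?_, ?_⟩
    · intro x t ht
      apply grad_axis (by positivity) (fun x => hodd.zero x ht)
      intro v
      have := hodd2 x v t ht
      rw [abs_mul] at this
      linarith
    · intro y t ht
      apply grad_axis' (by positivity)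
      · intro y
        have := hox 0 y t ht
        rw [neg_zero] at this
        linarith
      · intro u
        have := hodd2 u y t ht
        rw [abs_mul] at this
        linarith

end Pool.Agent.Results.MP_d08855_an.OddSolutions
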